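import Pool.Agent.MP_221c76_co.Tm.Cl3

universe u

open Pool.Agent.MP_221c76_co

theorem Pool.Agent.Results.MP_221c76_co.GenuineMatroidsClassified.result
    (P : Set MultiGraph.{u}) (hne : P.Nonempty)
    (hM : ∀ Γ : MultiGraph.{u}, ∃ M : Matroid Γ.E, M.E = Set.univ ∧ ∀ C : Set Γ.E,
      M.IsCircuit C ↔ ∃ S : Γ.Subgraph, S.edges = C ∧ ∃ H ∈ P, S.toGraph.Iso H)
    (hiso : ∀ G ∈ P, G.NoIsolatedVertex)
    (hcl : ∀ G ∈ P, ∀ H, G.Homeomorphic H → H ∈ P) :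
    ∃ r : ℕ, P = Series IsForest r ∨ P = Series IsPseudoforest r ∨
      P = Series IsEndPseudoforest r :=
  Tm.Hyp.classify ⟨hM, hiso, hcl⟩ hne
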