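import Pool.Agent.Mg.F221c76.G7d7fc8

universe u

open Pool.Agent.MP_221c76_co

theorem Pool.Agent.Results.MP_221c76_co.InfinitelyManyClasses.result :
    ∃ P : Set MultiGraph.{u}, IsMatroidalFamily P ∧
      (∀ G ∈ P, G.NoIsolatedVertex) ∧
      (∀ G ∈ P, ∀ H, G.Homeomorphic H → H ∈ P) ∧
      Infinite (Quot fun G H : P => G.1.Homeomorphic H.1) ∧
      (∀ G ∈ P, ∀ H, G.WidelyHomeomorphic H → H ∈ P) ∧
      Infinite (Quot fun G H : P => G.1.WidelyHomeomorphic H.1) :=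
  Pool.Agent.MP_221c76_co.main
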